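import Pool.Agent.ArborealIndex.Orbits

/-!
# MP_9fb0d9_nt, Q1: an example that is not postcritically finite

Over every number field `K`, the polynomial `f = (x-1)^2 (x-2)^2 + 1` (the translate by `1` of
`x^2 (x-1)^2`) is not postcritically finite, `0` has an infinite forward orbit and is not
postcritical, and `G` has infinite index in `G'`.
-/

open Polynomial

namespace Pool.Agent.Results.MP_9fb0d9_nt.NonPCFWandering

open Pool.Agent.ArborealIndex

/-- The polynomial `(x-1)^2 (x-2)^2 + 1 ∈ K[x]`. -/
noncomputable def quartic (K : Type*) [Field K] : K[X] := (X - C 1) ^ 2 * (X - C 2) ^ 2 + 1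

theorem result (K : Type*) [Field K] [NumberField K] :
    (quartic K).natDegree = 4 ∧ ¬ IsPCF (quartic K) ∧ ZeroWandering (quartic K) ∧
      ¬ ZeroPostcritical (quartic K) ∧ ¬ FiniteIndex (quartic K) :=
  ⟨fQuart_natDegree K, fQuart_not_isPCF, fQuart_zeroWandering, fQuart_not_postcritical,
    not_finiteIndex_of_unbounded _ (fQuart_unbounded K)⟩

end Pool.Agent.Results.MP_9fb0d9_nt.NonPCFWandering
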