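import Pool.Agent.ArborealIndex.Orbits

/-!
# MP_9fb0d9_nt, Q2: a postcritically finite example with `0` wandering and not postcritical

Over every number field `K`, the polynomial `f = (x-2)^2 + 1` (the translate by `2` of the
basilica map `x^2 - 1`) is postcritically finite, `0` has an infinite forward orbit and is not
postcritical, and `G` has infinite index in `G'`.
-/

open Polynomial

namespace Pool.Agent.Results.MP_9fb0d9_nt.PCFWandering

open Pool.Agent.ArborealIndex

/-- The polynomial `(x-2)^2 + 1 ∈ K[x]`. -/
noncomputable def basilica (K : Type*) [Field K] : K[X] := (X - C 2) ^ 2 + 1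

theorem result (K : Type*) [Field K] [NumberField K] :
    (basilica K).natDegree = 2 ∧ IsPCF (basilica K) ∧ ZeroWandering (basilica K) ∧
      ¬ ZeroPostcritical (basilica K) ∧ ¬ FiniteIndex (basilica K) :=
  ⟨fBas_natDegree K, fBas_isPCF, fBas_zeroWandering, fBas_not_postcritical,
    not_finiteIndex_of_unbounded _ (fBas_unbounded K)⟩

end Pool.Agent.Results.MP_9fb0d9_nt.PCFWandering
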